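import Pool.Agent.TH498.CO.Lim

/-!
# The elliptic curves with full rational 2-torsion ordered by the conductor: superexponentially
thin tails of the ranks and of the Tate-Shafarevich groups

All the elliptic curves over `ℚ` with full rational 2-torsion (any reduction, all quadratic
twists), ordered by the conductor `N_E ≤ N`, with `|Disc| ≤ N ^ K` for an arbitrary constant `K`.
There is a set `Z` of curves, of density zero in all these families, off which all the moments of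
`2 ^ rank * #Ш[2 ^ k] ^ (1 / k)` are bounded, uniformly in `k`. The upper density of the curves
with `rank + corank Ш[2 ^ ∞] ≥ r` is `o (A ^ (-r))` for every `A`.
-/

set_option autoImplicit false

namespace Pool.Agent.Results.MP_6073f3_nt.ConductorTails

open Filter Finset
open Pool.Agent.TH841.SH.D (Sha ShaTor HasDiv rk)

/-- the discriminant `4a³ - 27b²` of the cubic of the model `y² = x³ - a x - b` -/
def Disc (a b : ℤ) : ℤ := 4 * a ^ 3 - 27 * b ^ 2

/-- the model `y² = x³ - a x - b` is an elliptic curve and it is minimal: `|Disc|` is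
smallest among the integral models `y² = x³ - a' x - b'`, `a' = u⁴ a`, `b' = u⁶ b`, `u ∈ ℚ^×` -/
def IsMinimal (a b : ℤ) : Prop :=
  Disc a b ≠ 0 ∧ ∀ (u : ℚ) (a' b' : ℤ), u ≠ 0 → (a' : ℚ) = u ^ 4 * a → (b' : ℚ) = u ^ 6 * b →
    |Disc a b| ≤ |Disc a' b'|

/-- all 2-torsion points are rational: `x³ - a x - b` splits over `ℚ` -/
def FullTwoTorsion (a b : ℤ) : Prop :=
  ∃ r₁ r₂ r₃ : ℚ, ∀ x : ℚ, x ^ 3 - a * x - b = (x - r₁) * (x - r₂) * (x - r₃)

/-- the prime-to-6 part of the conductor of a minimal model: the product over the primes `p ≥ 5`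
dividing `Disc` of `p` (multiplicative reduction: `p ∤ a`) or `p²` (additive reduction: `p ∣ a`) -/
def Cond6 (a b : ℤ) : ℕ :=
  ∏ p ∈ (Disc a b).natAbs.primeFactors.filter (fun p => 5 ≤ p), if (p : ℤ) ∣ a then p ^ 2 else p

/-- the curve `y² = x³ - a x - b` over `ℚ`, `q = (a, b)` -/
def E (q : ℤ × ℤ) : WeierstrassCurve ℚ := ⟨0, 0, 0, -(q.1 : ℚ), -(q.2 : ℚ)⟩

/-- the family: minimal models with full rational 2-torsion, `c ≤ N` and `|Disc| ≤ N ^ K` -/
def Fam (c : ℤ → ℤ → ℝ) (K N : ℝ) : Set (ℤ × ℤ) :=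
  {q | IsMinimal q.1 q.2 ∧ FullTwoTorsion q.1 q.2 ∧ c q.1 q.2 ≤ N ∧
    |((Disc q.1 q.2 : ℤ) : ℝ)| ≤ N ^ K}

/-- the proportion in the family of the curves that belong to the set `T` -/
noncomputable def proportion (c : ℤ → ℤ → ℝ) (K : ℝ) (T : Set (ℤ × ℤ)) (N : ℝ) : ℝ :=
  ((Fam c K N ∩ T).ncard : ℝ) / ((Fam c K N).ncard : ℝ)

/-- the curves with `rank + corank Ш[2 ^ ∞] ≥ r`: `Ш` has a subgroup `(ℚ₂ / ℤ₂) ^ m` with
`r ≤ rank + m` -/
def High (r : ℕ) : Set (ℤ × ℤ) := {q | ∃ m : ℕ, HasDiv (E q) m ∧ r ≤ rk (E q) + m}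

open Classical in
lemma proportion_eq {c : ℤ → ℤ → ℝ} {K N : ℝ} {S : Finset (ℤ × ℤ)}
    (hS : (S : Set (ℤ × ℤ)) = Fam c K N) (T : Set (ℤ × ℤ)) :
    proportion c K T N = ((S.filter fun q => q ∈ T).card : ℝ) / S.card := by
  unfold proportion
  have h1 : Fam c K N ∩ T = ((S.filter fun q => q ∈ T : Finset (ℤ × ℤ)) : Set (ℤ × ℤ)) := by
    rw [← hS]
    ext q
    simp
  rw [h1, Set.ncard_coe_finset, ← hS, Set.ncard_coe_finset]

lemma proportion_nonneg (c : ℤ → ℤ → ℝ) (K : ℝ) (T : Set (ℤ × ℤ)) (N : ℝ) :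
    0 ≤ proportion c K T N := by
  unfold proportion
  positivity

/-- `limsup` is at most `x` if the proportion is eventually at most `x + ε` -/
lemma limsup_le {c : ℤ → ℤ → ℝ} {K : ℝ} {T : Set (ℤ × ℤ)} {x : ℝ}
    (h : ∀ ε : ℝ, 0 < ε → ∀ᶠ N in atTop, proportion c K T N ≤ x + ε) :
    limsup (proportion c K T) atTop ≤ x := by
  refine le_of_forall_pos_le_add fun ε hε => ?_
  refine limsup_le_of_le ?_ (h ε hε)
  refine IsBoundedUnder.isCoboundedUnder_le ?_
  exact isBoundedUnder_of ⟨0, fun N => proportion_nonneg c K T N⟩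

lemma limsup_nonneg {c : ℤ → ℤ → ℝ} {K : ℝ} {T : Set (ℤ × ℤ)} {x : ℝ}
    (h : ∀ᶠ N in atTop, proportion c K T N ≤ x) : 0 ≤ limsup (proportion c K T) atTop := by
  refine le_limsup_of_frequently_le (Eventually.frequently
    (Eventually.of_forall fun N => proportion_nonneg c K T N)) ?_
  exact ⟨x, h⟩

/-- **Theorem.** There is a set `Z` of curves such that for every real `K ≥ 2` and every function
`c` of the minimal models with full rational 2-torsion that differs from the prime-to-6 part `N₆`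
of the conductor by a factor between `1` and `2 ^ 8 * 3 ^ 5` (for instance `c` = the conductor):
1. for `N ≥ 4 * 10 ^ 7` the family `Fam c K N` is finite and its number is between
`N ^ (2/3) / 10 ^ 6` and `C N ^ (2/3)`, with `C` independent of `N`;
2. the proportion in the family of the curves of `Z` tends to `0` as `N → ∞`;
3. the groups `Ш[2 ^ k]` of the curves are finite, and for every real `θ > 0` there is `C` such that
for all `N ≥ 4 * 10 ^ 7` and `k ≥ 1` the sum of `(2 ^ rank * #Ш[2 ^ k] ^ (1 / k)) ^ θ` over the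
curves of the family outside `Z` is at most `C` times the number of all the curves of the family;
4. for every real `A` the upper density of the curves with `rank + corank Ш[2 ^ ∞] ≥ r`, times
`A ^ r`, tends to `0` as `r → ∞`. -/
theorem result : ∃ Z : Set (ℤ × ℤ), ∀ K : ℝ, 2 ≤ K → ∀ c : ℤ → ℤ → ℝ,
    (∀ a b : ℤ, IsMinimal a b → FullTwoTorsion a b →
      (Cond6 a b : ℝ) ≤ c a b ∧ c a b ≤ 2 ^ 8 * 3 ^ 5 * (Cond6 a b : ℝ)) →
    (∃ C : ℝ, ∀ N : ℝ, 4 * 10 ^ 7 ≤ N → (Fam c K N).Finite ∧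
      N ^ ((2 : ℝ) / 3) / 10 ^ 6 ≤ ((Fam c K N).ncard : ℝ) ∧
      ((Fam c K N).ncard : ℝ) ≤ C * N ^ ((2 : ℝ) / 3)) ∧
    Tendsto (proportion c K Z) atTop (nhds 0) ∧
    (∀ q : ℤ × ℤ, IsMinimal q.1 q.2 → FullTwoTorsion q.1 q.2 →
      ∀ k : ℕ, Finite (ShaTor (E q) (2 ^ k))) ∧
    (∀ θ : ℝ, 0 < θ → ∃ C : ℝ, ∀ N : ℝ, 4 * 10 ^ 7 ≤ N → ∀ k : ℕ, 1 ≤ k →
      ∀ S : Finset (ℤ × ℤ), (S : Set (ℤ × ℤ)) = Fam c K N \ Z →
      ∑ q ∈ S, ((2 : ℝ) ^ rk (E q) *
        (Nat.card (ShaTor (E q) (2 ^ k)) : ℝ) ^ ((1 : ℝ) / k)) ^ θ ≤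
          C * ((Fam c K N).ncard : ℝ)) ∧
    ∀ A : ℝ, Tendsto (fun r : ℕ => A ^ r * limsup (proportion c K (High r)) atTop) atTop
      (nhds 0) := by
  classical
  obtain ⟨n, Z, hn, hdens, hmom⟩ := Pool.Agent.TH498.CO.lims
  refine ⟨Z, ?_⟩
  intro K hK c hc
  have hcl : Pool.Agent.TH498.CO.CL c := hc
  have hfin : ∀ N : ℝ, 4 * 10 ^ 7 ≤ N → ∃ S : Finset (ℤ × ℤ), (S : Set (ℤ × ℤ)) = Fam c K N :=
    fun N hN => ⟨(Pool.Agent.TH498.CO.fc_fin hcl hK hN).1.toFinset, Set.Finite.coe_toFinset _⟩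
  have hbd : ∀ q : ℤ × ℤ, IsMinimal q.1 q.2 → FullTwoTorsion q.1 q.2 →
      Pool.Agent.TH841.SH.Bd (E q) (n 1 q) := by
    intro q h1 h2
    have h3 := (hn q h1 h2).1 1 one_ne_zero
    have h4 : Pool.Agent.W307.RT.Sh ((1 : ℤ) ^ 2 * (-q.1)) ((1 : ℤ) ^ 3 * (-q.2)) = E q := by
      unfold Pool.Agent.W307.RT.Sh E
      push_cast
      simp only [one_mul]
    rwa [h4] at h3
  have hsum : ∀ θ : ℝ, 0 < θ → ∃ C : ℝ, 1 ≤ C ∧ ∀ N : ℝ, 4 * 10 ^ 7 ≤ N →
      ∀ S : Finset (ℤ × ℤ), (S : Set (ℤ × ℤ)) = Fam c K N →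
      ∑ q ∈ S.filter (fun q => q ∉ Z), n 1 q ^ θ ≤ C * S.card := by
    intro θ hθ
    obtain ⟨C, hC, h⟩ := hmom θ hθ K 0 hK le_rfl
    refine ⟨C, hC, fun N hN S hS => ?_⟩
    have h1 := h c hcl N hN S hS 1 one_ne_zero (by
      rw [Real.rpow_zero]
      simp)
    have h2 : (1 : ℤ).natAbs.primeFactors.card = 0 := by simp
    rw [h2, pow_zero, mul_one] at h1
    exact h1
  refine ⟨?_, ?_, fun q h1 h2 k => (hbd q h1 h2).fin k, ?_, ?_⟩
  · obtain ⟨C, hC, hup⟩ := Pool.Agent.TH498.CO.fc_upper K hK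
    refine ⟨C, fun N hN => ?_⟩
    obtain ⟨S, hS⟩ := hfin N hN
    refine ⟨(Pool.Agent.TH498.CO.fc_fin hcl hK hN).1, ?_, ?_⟩
    · have := (Pool.Agent.TH498.CO.fc_fin hcl hK hN).2 S hS
      rwa [← hS, Set.ncard_coe_finset]
    · have := hup c hcl N hN S hS
      rwa [← hS, Set.ncard_coe_finset]
  · rw [Metric.tendsto_atTop]
    intro ε hε
    obtain ⟨N0, hN0, h⟩ := hdens K hK (ε / 2) (by positivity)
    refine ⟨N0, fun N hN => ?_⟩
    obtain ⟨S, hS⟩ := hfin N (hN0.trans hN)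
    rw [Real.dist_eq, sub_zero, abs_of_nonneg (proportion_nonneg _ _ _ _), proportion_eq hS]
    have h1 := h c hcl N hN S hS
    refine lt_of_le_of_lt (div_le_of_le_mul₀ (Nat.cast_nonneg _) (by positivity) h1) (by linarith)
  · intro θ hθ
    obtain ⟨C, hC, h⟩ := hsum θ hθ
    refine ⟨C, fun N hN k hk S' hS' => ?_⟩
    obtain ⟨S, hS⟩ := hfin N hN
    have e : S' = S.filter fun q => q ∉ Z := by
      apply Finset.coe_injective
      rw [hS', ← hS]
      ext q
      simp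
    rw [← hS, Set.ncard_coe_finset, e]
    exact (Pool.Agent.TH498.CO.family_real (S.filter fun q => q ∉ Z) (fun q => E q) (n 1)
      (C * S.card) θ hθ (fun q hq => by
        have h1 : q ∈ Fam c K N := by rw [← hS]; exact mem_coe.2 (mem_filter.1 hq).1
        exact hbd q h1.1 h1.2.1) (h N hN S hS)).2.1 k hk
  · intro A
    -- the tails
    obtain ⟨B, hB⟩ : ∃ B : ℝ, B = 2 * (|A| + 1) := ⟨_, rfl⟩
    have hB2 : 2 ≤ B := by rw [hB]; linarith [abs_nonneg A]
    have hB0 : 0 < B := by linarith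
    obtain ⟨θ, hθ⟩ : ∃ θ : ℝ, θ = Real.logb 2 B := ⟨_, rfl⟩
    have hθ1 : (2 : ℝ) ^ θ = B := by rw [hθ]; exact Real.rpow_logb (by norm_num) (by norm_num) hB0
    have hθ0 : 0 < θ := by rw [hθ]; exact Real.logb_pos (by norm_num) (by linarith)
    obtain ⟨C, hC, h⟩ := hsum θ hθ0
    have htail : ∀ (r : ℕ) (ε : ℝ), 0 < ε → ∀ᶠ N in atTop,
        proportion c K (High r) N ≤ C / B ^ r + ε := by
      intro r ε hε
      obtain ⟨N0, hN0, hd⟩ := hdens K hK ε hε
      refine eventually_atTop.2 ⟨N0, fun N hN => ?_⟩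
      obtain ⟨S, hS⟩ := hfin N (hN0.trans hN)
      rw [proportion_eq hS]
      have hBr : 0 < B ^ r := by positivity
      have h1 : ((S.filter fun q => q ∈ High r).card : ℝ) ≤
          ((S.filter fun q => q ∈ Z).card : ℝ) +
          ((S.filter fun q => q ∉ Z ∧ q ∈ High r).card : ℝ) := by
        have h2 : (S.filter fun q => q ∈ High r) ⊆ (S.filter fun q => q ∈ Z) ∪
            (S.filter fun q => q ∉ Z ∧ q ∈ High r) := by
          intro q hq
          rw [mem_union, mem_filter, mem_filter]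
          obtain ⟨h3, h4⟩ := mem_filter.1 hq
          by_cases hz : q ∈ Z
          · exact Or.inl ⟨h3, hz⟩
          · exact Or.inr ⟨h3, hz, h4⟩
        exact_mod_cast (card_le_card h2).trans (card_union_le _ _)
      have h2 : ((S.filter fun q => q ∉ Z ∧ q ∈ High r).card : ℝ) * B ^ r ≤ C * S.card := by
        refine le_trans ?_ (h N (hN0.trans hN) S hS)
        have h3 : (S.filter fun q => q ∉ Z ∧ q ∈ High r) ⊆ S.filter fun q => q ∉ Z := by
          intro q hq
          obtain ⟨h3, h4, h5⟩ := mem_filter.1 hq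
          exact mem_filter.2 ⟨h3, h4⟩
        have hpos : ∀ q ∈ S.filter (fun q => q ∉ Z), 0 ≤ n 1 q ^ θ := by
          intro q hq
          have h4 : q ∈ Fam c K N := by rw [← hS]; exact mem_coe.2 (mem_filter.1 hq).1
          exact Real.rpow_nonneg (zero_le_one.trans
            (Pool.Agent.TH498.CO.one_le_of_bd (hbd q h4.1 h4.2.1))) _
        refine le_trans ?_ (sum_le_sum_of_subset_of_nonneg h3 fun q hq _ => hpos q hq)
        rw [← nsmul_eq_mul]
        refine card_nsmul_le_sum _ _ _ fun q hq => ?_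
        obtain ⟨h5, h6, m, h7, h8⟩ := mem_filter.1 hq
        have h4 : q ∈ Fam c K N := by rw [← hS]; exact mem_coe.2 h5
        have h9 := (hbd q h4.1 h4.2.1).div_le le_rfl h7
        calc B ^ r = ((2 : ℝ) ^ r) ^ θ := by
              rw [← hθ1, ← Real.rpow_natCast, ← Real.rpow_natCast, ← Real.rpow_mul (by norm_num),
                ← Real.rpow_mul (by norm_num), mul_comm]
          _ ≤ n 1 q ^ θ := by
              refine Real.rpow_le_rpow (by positivity) (le_trans ?_ h9) hθ0.le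
              exact pow_le_pow_right₀ (by norm_num) h8
      have h3 := hd c hcl N hN S hS
      refine div_le_of_le_mul₀ (Nat.cast_nonneg _) (by positivity) ?_
      have h4 : ((S.filter fun q => q ∉ Z ∧ q ∈ High r).card : ℝ) ≤ C / B ^ r * S.card := by
        rw [div_mul_eq_mul_div, le_div_iff₀ hBr]
        exact h2
      calc _ ≤ _ := h1
        _ ≤ ε * S.card + C / B ^ r * S.card := add_le_add h3 h4
        _ = _ := by ring
    have hup : ∀ r : ℕ, limsup (proportion c K (High r)) atTop ≤ C / B ^ r :=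
      fun r => limsup_le (htail r)
    have hlo : ∀ r : ℕ, 0 ≤ limsup (proportion c K (High r)) atTop :=
      fun r => limsup_nonneg (htail r 1 one_pos)
    have hz : Tendsto (fun r : ℕ => C * (1 / 2 : ℝ) ^ r) atTop (nhds 0) := by
      have := (tendsto_pow_atTop_nhds_zero_of_lt_one (show (0 : ℝ) ≤ 1 / 2 by norm_num)
        (by norm_num)).const_mul C
      rwa [mul_zero] at this
    refine squeeze_zero_norm (fun r => ?_) hz
    rw [Real.norm_eq_abs, abs_mul, abs_pow, abs_of_nonneg (hlo r)]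
    have hA : |A| ≤ B / 2 := by rw [hB]; linarith
    calc |A| ^ r * limsup (proportion c K (High r)) atTop
        ≤ (B / 2) ^ r * (C / B ^ r) :=
          mul_le_mul (pow_le_pow_left₀ (abs_nonneg A) hA r) (hup r) (hlo r) (by positivity)
      _ = C * (1 / 2) ^ r := by
          rw [div_pow, div_pow, one_pow]
          have : B ^ r ≠ 0 := by positivity
          field_simp

end Pool.Agent.Results.MP_6073f3_nt.ConductorTails
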