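import Mathlib
import Pool.Agent.TH344.DS.Main
import Pool.Agent.TH344.DT.Fin2
import Pool.Agent.W307.RS.MainD
import Pool.Agent.W307.RT.Tors

/-!
# Tails of the ranks of the curves with full rational 2-torsion, by minimal discriminant

All elliptic curves over `ℚ` with full rational 2-torsion, ordered by the absolute value of the
minimal discriminant. There is one set of curves of density zero such that over all the other curves
all the moments of the orders of the 2-Selmer groups are bounded. So the upper density of the curves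
of rank at least `r` decays faster than any exponential `A ^ (-r)`.
-/

namespace Pool.Agent.Results.MP_6073f3_nt.DiscriminantTails

open Finset Filter Topology

/-- the curve `y² = x³ + A x + B` over `ℚ` -/
def E (A B : ℤ) : WeierstrassCurve ℚ := ⟨0, 0, 0, (A : ℚ), (B : ℚ)⟩

/-- the absolute value of the minimal discriminant of an elliptic curve `W` over `ℚ`: the smallest
absolute value of the discriminant of a Weierstrass equation `V` with integer coefficients which is
isomorphic to `W` over `ℚ` -/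
noncomputable def minDisc (W : WeierstrassCurve ℚ) : ℕ :=
  sInf {n : ℕ | ∃ (V : WeierstrassCurve ℤ) (C : WeierstrassCurve.VariableChange ℚ),
    C • W = V.map (Int.castRingHom ℚ) ∧ n = V.Δ.natAbs}

/-- The pairs `(A, B)` of integers such that `4 A³ + 27 B² ≠ 0`, there is no prime `p` with
`p⁴ ∣ A` and `p⁶ ∣ B`, the minimal discriminant of `y² = x³ + A x + B` is at most `D`, and
`Z/2 x Z/2` embeds in the group of its rational points. (Every elliptic curve over `ℚ` is
isomorphic to `E A B` for exactly one pair with the first two properties.) -/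
def Fam (D : ℕ) : Set (ℤ × ℤ) :=
  {c : ℤ × ℤ | 4 * c.1 ^ 3 + 27 * c.2 ^ 2 ≠ 0 ∧
    (∀ p : ℕ, p.Prime → ¬ ((p : ℤ) ^ 4 ∣ c.1 ∧ (p : ℤ) ^ 6 ∣ c.2)) ∧
    (∃ f : ZMod 2 × ZMod 2 →+ (E c.1 c.2).toAffine.Point, Function.Injective f) ∧
    minDisc (E c.1 c.2) ≤ D}

/-- the Mordell-Weil rank -/
noncomputable def rank (c : ℤ × ℤ) : ℕ := Module.finrank ℤ (E c.1 c.2).toAffine.Point

/-- The local condition at a completion `K` of `ℚ`: there is a point `(x, y)`, `y ≠ 0`, of
`y² = x³ + A x + B` over `K` such that `(x - e) * d e` is a square for all the integer roots `e` of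
`x³ + A x + B`. (Every class of `E(K) / 2 E(K)` contains a point with `y ≠ 0`.) -/
def Local (K : Type) [Field K] (A B : ℤ) (d : ℤ → ℤ) : Prop :=
  ∃ x y : K, y ≠ 0 ∧ y ^ 2 = x ^ 3 + A * x + B ∧
    ∀ e : ℤ, e ^ 3 + A * e + B = 0 → IsSquare ((x - e) * d e)

/-- The 2-Selmer group of `y² = x³ + A x + B`, a curve with three integer roots. As `E[2]` is the
group of the families of signs with product one indexed by the roots, an element of the 2-Selmer
group is a family of classes of nonzero rational numbers modulo squares indexed by the roots `e`,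
given by squarefree integers `d e` (`d e = 1` if `e` is not a root), which over `ℝ` and over `ℚ_[p]`
for all primes `p` is the family of the classes of `x - e` for a point of the curve. -/
def Sel2 (A B : ℤ) : Set (ℤ → ℤ) :=
  {d | (∀ e, Squarefree (d e)) ∧ (∀ e : ℤ, e ^ 3 + A * e + B ≠ 0 → d e = 1) ∧ Local ℝ A B d ∧
    ∀ (p : ℕ) [Fact p.Prime], Local ℚ_[p] A B d}

/-- the proportion of the curves of `S` among the curves of minimal discriminant at most `D` -/
noncomputable def proportion (S : Set (ℤ × ℤ)) (D : ℕ) : ℝ :=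
  ((Fam D ∩ S).ncard : ℝ) / (Fam D).ncard

/-- the upper density of a set of curves -/
noncomputable def upperDensity (S : Set (ℤ × ℤ)) : ℝ := limsup (proportion S) atTop

lemma Fam_eq (D : ℕ) : Fam D = (Pool.Agent.TH344.DS.Dv D : Set (ℤ × ℤ)) := by
  classical
  have h0 : Fam D = Pool.Agent.W307.RS.DvS 2 D := by
    ext c
    have h : Pool.Agent.W307.RT.HasT 2 (Pool.Agent.W307.RT.Sh c.1 c.2) ↔
        ∃ f : ZMod 2 × ZMod 2 →+ (E c.1 c.2).toAffine.Point, Function.Injective f :=
      Pool.Agent.W307.RT.tors_iff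
    unfold Fam Pool.Agent.W307.RS.DvS
    rw [Set.mem_ofPred_eq, Set.mem_ofPred_eq, h]
    exact Iff.rfl
  rw [h0]
  unfold Pool.Agent.TH344.DS.Dv
  rw [dif_pos (Pool.Agent.TH344.DS.excd.1 D), Set.Finite.coe_toFinset]

lemma Fam_ncard (D : ℕ) : (Fam D).ncard = (Pool.Agent.TH344.DS.Dv D).card := by
  rw [Fam_eq, Set.ncard_coe_finset]

lemma proportion_eq (S : Set (ℤ × ℤ)) :
    proportion S = Pool.Agent.TH344.GT.pr Pool.Agent.TH344.DS.Dv S := by
  funext D
  unfold proportion Pool.Agent.TH344.GT.pr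
  rw [Fam_eq, Set.ncard_coe_finset]

lemma upperDensity_eq (S : Set (ℤ × ℤ)) :
    upperDensity S = Pool.Agent.TH344.GT.ud Pool.Agent.TH344.DS.Dv S := by
  unfold upperDensity Pool.Agent.TH344.GT.ud
  rw [proportion_eq]

lemma mem_Fam {D : ℕ} {c : ℤ × ℤ} (hc : c ∈ Fam D) :
    4 * c.1 ^ 3 + 27 * c.2 ^ 2 ≠ 0 ∧ Pool.Agent.W307.RT.HasT 2 (Pool.Agent.W307.RT.Sh c.1 c.2) := by
  have h : Pool.Agent.W307.RT.HasT 2 (Pool.Agent.W307.RT.Sh c.1 c.2) ↔
      ∃ f : ZMod 2 × ZMod 2 →+ (E c.1 c.2).toAffine.Point, Function.Injective f :=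
    Pool.Agent.W307.RT.tors_iff
  exact ⟨hc.1, h.2 hc.2.2.1⟩

/-- **Theorem.** The number of the elliptic curves over `ℚ` with full rational 2-torsion and minimal
discriminant at most `D` in absolute value is finite and tends to infinity with `D`; their 2-Selmer
groups are finite, of order at least `2 ^ rank`. There is a set `Z` of curves of density zero such
that for every `k` the sum of the `k`-th powers of the orders of the 2-Selmer groups of the curves of
minimal discriminant at most `D` outside of `Z` is at most `C_k` times the number of the curves of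
minimal discriminant at most `D`. For every real number `A`, the upper density of the curves of rank
at least `r` times `A ^ r` tends to zero for `r → ∞`, and so does the upper density of the curves
whose 2-Selmer group has at least `2 ^ r` elements times `A ^ r`. -/
theorem result :
    (∀ D : ℕ, (Fam D).Finite ∧ ∀ c ∈ Fam D, (Sel2 c.1 c.2).Finite ∧
      2 ^ rank c ≤ (Sel2 c.1 c.2).ncard) ∧
    Tendsto (fun D : ℕ => (Fam D).ncard) atTop atTop ∧
    (∃ Z : Set (ℤ × ℤ), Tendsto (proportion Z) atTop (𝓝 0) ∧ ∀ k : ℕ, ∃ C : ℝ, ∀ D : ℕ,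
      ∑ᶠ c ∈ Fam D \ Z, ((Sel2 c.1 c.2).ncard : ℝ) ^ k ≤ C * (Fam D).ncard) ∧
    (∀ A : ℝ, Tendsto (fun r : ℕ => A ^ r * upperDensity {c | r ≤ rank c}) atTop (𝓝 0)) ∧
    ∀ A : ℝ, Tendsto (fun r : ℕ => A ^ r * upperDensity {c | 2 ^ r ≤ (Sel2 c.1 c.2).ncard}) atTop
      (𝓝 0) := by
  classical
  obtain ⟨hD1, hD2, hD3⟩ := Pool.Agent.TH344.DS.excd
  have hfin : ∀ D, ∀ c ∈ Fam D, (Sel2 c.1 c.2).Finite ∧ 2 ^ rank c ≤ (Sel2 c.1 c.2).ncard := by
    intro D c hc
    obtain ⟨h1, h2⟩ := mem_Fam hc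
    have hc' : c ∈ Pool.Agent.W307.RS.DvS 2 D := ⟨h1, hc.2.1, h2, hc.2.2.2⟩
    have h3 : (Pool.Agent.W307.SE.SelR c.1 c.2).Finite := hD2 D c hc'
    obtain ⟨F, -, hF⟩ := Pool.Agent.W513.FK.parf
    obtain ⟨-, -, -, -, -, e1, e2, e3, he, -, -⟩ := hF c h1 h2
    exact ⟨h3, Pool.Agent.W402.FK.rks c.1 c.2 e1 e2 e3 h1 he h3⟩
  obtain ⟨Z, hZ1, hZ2⟩ := hD3
  refine ⟨fun D => ⟨?_, hfin D⟩, ?_, ⟨Z, ?_, fun k => ?_⟩, fun A => ?_, fun A => ?_⟩
  · rw [Fam_eq]
    exact finite_toSet _
  · have h1 := Pool.Agent.W307.RT.tendsto_of_low Pool.Agent.W672.FK.lowf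
    have h2 : Tendsto (fun D : ℕ => (Pool.Agent.W307.RT.Cv 2 (D / 32)).card) atTop atTop :=
      h1.comp (Nat.tendsto_div_const_atTop (by norm_num))
    refine tendsto_atTop_mono (fun D => ?_) h2
    have h3 : (Pool.Agent.TH344.DS.Dv D : Set (ℤ × ℤ)) = Pool.Agent.W307.RS.DvS 2 D := by
      unfold Pool.Agent.TH344.DS.Dv
      rw [dif_pos (hD1 D), Set.Finite.coe_toFinset]
    rw [Fam_eq, h3, ← Set.ncard_coe_finset]
    exact Set.ncard_le_ncard (Pool.Agent.W307.RS.Cv_sub Pool.Agent.W554.RS.mdl 2 (D / 32) D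
      (Nat.mul_div_le D 32)) (hD1 D)
  · rw [proportion_eq]
    exact Pool.Agent.TH344.GT.tendsto_of_eps _ hZ1
  · obtain ⟨C, hC⟩ := hZ2 k
    refine ⟨C, fun D => ?_⟩
    have h1 : Fam D \ Z =
        (((Pool.Agent.TH344.DS.Dv D).filter (fun c => c ∉ Z) : Finset (ℤ × ℤ)) :
          Set (ℤ × ℤ)) := by
      rw [Fam_eq]
      ext c
      simp
    rw [h1, finsum_mem_coe_finset, Fam_ncard]
    exact hC D
  · simp only [upperDensity_eq]
    apply Pool.Agent.TH344.GT.tail _ Pool.Agent.TH344.DS.excd.2.2 1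
    intro r D c hc hr
    rw [pow_one]
    have hc' : c ∈ Fam D := by
      rw [Fam_eq]
      exact mem_coe.2 hc
    exact (Nat.pow_le_pow_right (by norm_num) hr).trans (hfin D c hc').2
  · simp only [upperDensity_eq]
    apply Pool.Agent.TH344.GT.tail _ Pool.Agent.TH344.DS.excd.2.2 1
    intro r D c hc hr
    rw [pow_one]
    exact hr

end Pool.Agent.Results.MP_6073f3_nt.DiscriminantTails
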