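import Mathlib
import Pool.Agent.TH779.BS.GrowP

/-!
# The growth of ranks in one-parameter families around typical integers and along the primes

`W_t : y² = x (x - D(t) u₀(t)) (x - D(t) u₁(t))`, where `u₀`, `u₁` and `u₂ = u₀ - u₁` are
polynomials with integer coefficients, `u_k` being a constant times a product of `n_k` irreducible
polynomials, these `n₀ + n₁ + n₂` irreducible polynomials being pairwise different, and `D` is any
nonzero polynomial not divisible by one of them. Let `s_k` be the number of the irreducible factors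
of `u_k` at which the elliptic curve over `ℚ(t)` has split multiplicative reduction. Assume that
`2 n_k + s_k ≤ n₀ + n₁ + n₂` for `k = 0, 1, 2` and that `D(t) u_k(t) ≠ 0` for all integers `t`.

For finitely many such families, every `b` and every finite set `H` of nonnegative integers there is
`C` such that in EVERY interval `(N, N + Y]`, `N ^ θ ≤ Y ≤ N`, for all but at most
`ε Y / (log Y) ^ |H|` of the integers `n` of the interval the following holds: for ALL integers `m`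
of the interval such that all `m + h`, `h ∈ H`, are primes, and ALL integers `t` with
`|t - m| ≤ b` rank and 2-primary Tate-Shafarevich group of `W_t` are bounded by `C (1 + |m - n|)`.
-/

set_option autoImplicit false

namespace Pool.Agent.Results.MP_6073f3_nt.GrowthInPencils

open Finset Polynomial Filter

open Pool.Agent.TH841.SH.D (Sha ShaTor HasDiv rk)

/-- the curve `y² = x (x - A) (x - B)` over `ℚ` -/
def E (A B : ℤ) : WeierstrassCurve ℚ := ⟨0, -((A : ℚ) + B), 0, (A : ℚ) * B, 0⟩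

/-- `u_k = a_k ∏ f_{k,i}` -/
noncomputable def u {n : Fin 3 → ℕ} (a : Fin 3 → ℤ) (f : ∀ k : Fin 3, Fin (n k) → ℤ[X])
    (k : Fin 3) : ℤ[X] := C (a k) * ∏ i, f k i

/-- `v` is a square modulo `f`, over the rationals -/
def SqMod (f v : ℤ[X]) : Prop := ∃ q : ℚ[X], f.map (Int.castRingHom ℚ) ∣
  (q ^ 2 - v.map (Int.castRingHom ℚ))

/-- modulo a factor `f` of `u_k`, the curve `y² = x (x - D u₀) (x - D u₁)` has a node whose tangent
directions are the square roots of `v_k`; so the reduction at `f` is split if and only if `v_k` is a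
square modulo `f` -/
noncomputable def v {n : Fin 3 → ℕ} (D : ℤ[X]) (a : Fin 3 → ℤ)
    (f : ∀ k : Fin 3, Fin (n k) → ℤ[X]) : Fin 3 → ℤ[X] :=
  ![-(D * u a f 1), -(D * u a f 0), D * u a f 0]

open Classical in
/-- the number of the factors of `u_k` with split multiplicative reduction -/
noncomputable def s {n : Fin 3 → ℕ} (D : ℤ[X]) (a : Fin 3 → ℤ)
    (f : ∀ k : Fin 3, Fin (n k) → ℤ[X]) (k : Fin 3) : ℕ :=
  (univ.filter (fun i => SqMod (f k i) (v D a f k))).card

/-- the family `y² = x (x - D u₀) (x - D u₁)` is admitted -/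
structure IsPencil {n : Fin 3 → ℕ} (a : Fin 3 → ℤ) (f : ∀ k : Fin 3, Fin (n k) → ℤ[X])
    (D : ℤ[X]) : Prop where
  ne_zero : ∀ k, a k ≠ 0
  irreducible : ∀ k i, Irreducible (f k i) ∧ 0 < (f k i).natDegree
  distinct : ∀ k i l j, (⟨k, i⟩ : Σ k : Fin 3, Fin (n k)) ≠ ⟨l, j⟩ → ¬ Associated (f k i) (f l j)
  rel : u a f 0 - u a f 1 = u a f 2
  D_ne_zero : D ≠ 0
  not_dvd : ∀ k i, ¬ f k i ∣ D
  balanced : ∀ k, 2 * n k + s D a f k ≤ n 0 + n 1 + n 2
  smooth : ∀ (t : ℤ) (k : Fin 3), (D * u a f k).eval t ≠ 0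

/-- the fibre at `t` -/
noncomputable def fib {n : Fin 3 → ℕ} (a : Fin 3 → ℤ) (f : ∀ k : Fin 3, Fin (n k) → ℤ[X])
    (D : ℤ[X]) (t : ℤ) : WeierstrassCurve ℚ :=
  E ((D * u a f 0).eval t) ((D * u a f 1).eval t)

/-- all `Ш[2 ^ k]` are finite, `2 ^ rank * #Ш[2 ^ k] ^ (1 / k) ≤ R` for all `k ≥ 1`, and
`2 ^ (rank + q) ≤ R` if `Ш` has a subgroup `(ℚ₂ / ℤ₂) ^ q` -/
def Bounded (R : ℝ) (W : WeierstrassCurve ℚ) : Prop :=
  (∀ k : ℕ, Finite (ShaTor W (2 ^ k))) ∧
  (∀ k : ℕ, 1 ≤ k →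
    (2 : ℝ) ^ rk W * (Nat.card (ShaTor W (2 ^ k)) : ℝ) ^ ((1 : ℝ) / k) ≤ R) ∧
  ∀ q : ℕ, HasDiv W q → (2 : ℝ) ^ (rk W + q) ≤ R

open Classical in
/-- **Theorem.** For all admitted families
`W^i_t : y² = x (x - D_i(t) u_{i,0}(t)) (x - D_i(t) u_{i,1}(t))` (`i < g`), every finite set `H` of
nonnegative integers, every `b` and all `θ, ε > 0` there is `C` such that for all large `N` and all
`Y` with `N ^ θ ≤ Y ≤ N` all but at most `ε Y / (log Y) ^ |H|` of the integers `n'` of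
`(N, N + Y]` have the following property: for all integers `m` with `N < m ≤ N + Y` such that all
`m + h`, `h ∈ H`, are primes, all integers `t` with `|t - m| ≤ b` and all `i` the elliptic curve
`W^i_t` is bounded by `C (1 + |m - n'|)`. -/
theorem result (g : ℕ) (n : Fin g → Fin 3 → ℕ) (a : Fin g → Fin 3 → ℤ)
    (f : ∀ i : Fin g, ∀ k : Fin 3, Fin (n i k) → ℤ[X]) (D : Fin g → ℤ[X])
    (hP : ∀ i, IsPencil (a i) (f i) (D i)) (H : Finset ℕ) (b : ℕ) (θ ε : ℝ) (hθ : 0 < θ)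
    (hε : 0 < ε) :
    ∃ C : ℝ, ∀ᶠ N : ℕ in atTop, ∀ Y : ℕ, (N : ℝ) ^ θ ≤ Y → Y ≤ N →
      (((Ioc N (N + Y)).filter (fun n' : ℕ => ¬ ∀ m : ℕ, N < m → m ≤ N + Y →
        (∀ h ∈ H, (m + h).Prime) → ∀ t : ℤ, |t - m| ≤ b → ∀ i,
        Bounded (C * (1 + |(m : ℝ) - n'|)) (fib (a i) (f i) (D i) t))).card : ℝ) ≤
        ε * (Y / (Real.log Y) ^ H.card) := by
  have hP' : ∀ i, Pool.Agent.TH779.BS.IsPen (a i) (f i) (D i) := fun i =>
    ⟨(hP i).ne_zero, ⟨fun x => ((hP i).irreducible x.1 x.2).1,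
      fun x => ((hP i).irreducible x.1 x.2).2, fun x y hxy => (hP i).distinct x.1 x.2 y.1 y.2 hxy⟩,
      (hP i).rel, (hP i).D_ne_zero, (hP i).not_dvd,
      Pool.Agent.TH841.TR.bal_of (v := v (D i) (a i) (f i)) rfl rfl rfl (hP i).balanced,
      (hP i).smooth⟩
  obtain ⟨C, _, hC⟩ := Pool.Agent.TH779.BS.growthP hP' H b θ ε hθ hε
  refine ⟨C, ?_⟩
  filter_upwards [hC] with N hN
  intro Y hNY hYN
  refine le_trans (Nat.cast_le.2 (card_le_card ?_)) (hN Y hNY hYN)
  intro n' hn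
  rw [mem_filter] at hn ⊢
  refine ⟨hn.1, fun hall => hn.2 fun m hm1 hm2 hmp t ht i => ?_⟩
  have h5 := hall m hm1 hm2 hmp t ht i
  exact ⟨fun k => h5.fin k, fun _ hk => h5.wt_le hk, fun _ hq => h5.div_le le_rfl hq⟩

end Pool.Agent.Results.MP_6073f3_nt.GrowthInPencils
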