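import Mathlib
import Pool.Agent.TH779.BS.LocC
import Pool.Agent.TH779.BS.TailP

/-!
# One-parameter families of elliptic curves near the almost primes, in all windows

`W_t : y² = x (x - D(t) u₀(t)) (x - D(t) u₁(t))`, where `u₀`, `u₁` and `u₂ = u₀ - u₁` are
polynomials with integer coefficients, `u_k` being a constant times a product of `n_k` irreducible
polynomials, these `n₀ + n₁ + n₂` irreducible polynomials being pairwise different, and `D` is any
nonzero polynomial not divisible by one of them. Let `s_k` be the number of the irreducible factors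
of `u_k` at which the elliptic curve over `ℚ(t)` has split multiplicative reduction. Assume that
`2 n_k + s_k ≤ n₀ + n₁ + n₂` for `k = 0, 1, 2` and that `D(t) u_k(t) ≠ 0` for all integers `t`.

For finitely many such families and every `b` there is `C` such that in EVERY interval `(N, N + Y]`,
`N ^ θ ≤ Y ≤ N`, for all but at most `ε Y` integers `n` ALL windows around `n`, down to a constant
multiple of `log N`, contain the expected number `(1 ± ε) (v - u) V` of integers `m` without prime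
factors `≤ N ^ (1 / r)`, and for every `R > 0` at most `(C / R) (v - u) V` of these are such that
for one of the families and one `t` with `|t - m| ≤ b` rank and 2-primary Tate-Shafarevich group of
`W_t` are not bounded by `R`.
-/

set_option autoImplicit false

namespace Pool.Agent.Results.MP_6073f3_nt.PencilsAtAlmostPrimes

open Finset Polynomial Filter

open Pool.Agent.TH841.SH.D (Sha ShaTor HasDiv rk)

/-- the curve `y² = x (x - A) (x - B)` over `ℚ` -/
def E (A B : ℤ) : WeierstrassCurve ℚ := ⟨0, -((A : ℚ) + B), 0, (A : ℚ) * B, 0⟩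

/-- `u_k = a_k ∏ f_{k,i}` -/
noncomputable def u {n : Fin 3 → ℕ} (a : Fin 3 → ℤ) (f : ∀ k : Fin 3, Fin (n k) → ℤ[X])
    (k : Fin 3) : ℤ[X] := C (a k) * ∏ i, f k i

/-- `v` is a square modulo `f`, over the rationals -/
def SqMod (f v : ℤ[X]) : Prop := ∃ q : ℚ[X], f.map (Int.castRingHom ℚ) ∣
  (q ^ 2 - v.map (Int.castRingHom ℚ))

/-- modulo a factor `f` of `u_k`, the curve `y² = x (x - D u₀) (x - D u₁)` has a node whose tangent
directions are the square roots of `v_k`; so the reduction at `f` is split if and only if `v_k` is a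
square modulo `f` -/
noncomputable def v {n : Fin 3 → ℕ} (D : ℤ[X]) (a : Fin 3 → ℤ)
    (f : ∀ k : Fin 3, Fin (n k) → ℤ[X]) : Fin 3 → ℤ[X] :=
  ![-(D * u a f 1), -(D * u a f 0), D * u a f 0]

open Classical in
/-- the number of the factors of `u_k` with split multiplicative reduction -/
noncomputable def s {n : Fin 3 → ℕ} (D : ℤ[X]) (a : Fin 3 → ℤ)
    (f : ∀ k : Fin 3, Fin (n k) → ℤ[X]) (k : Fin 3) : ℕ :=
  (univ.filter (fun i => SqMod (f k i) (v D a f k))).card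

/-- the family `y² = x (x - D u₀) (x - D u₁)` is admitted -/
structure IsPencil {n : Fin 3 → ℕ} (a : Fin 3 → ℤ) (f : ∀ k : Fin 3, Fin (n k) → ℤ[X])
    (D : ℤ[X]) : Prop where
  ne_zero : ∀ k, a k ≠ 0
  irreducible : ∀ k i, Irreducible (f k i) ∧ 0 < (f k i).natDegree
  distinct : ∀ k i l j, (⟨k, i⟩ : Σ k : Fin 3, Fin (n k)) ≠ ⟨l, j⟩ → ¬ Associated (f k i) (f l j)
  rel : u a f 0 - u a f 1 = u a f 2
  D_ne_zero : D ≠ 0
  not_dvd : ∀ k i, ¬ f k i ∣ D
  balanced : ∀ k, 2 * n k + s D a f k ≤ n 0 + n 1 + n 2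
  smooth : ∀ (t : ℤ) (k : Fin 3), (D * u a f k).eval t ≠ 0

/-- the fibre at `t` -/
noncomputable def fib {n : Fin 3 → ℕ} (a : Fin 3 → ℤ) (f : ∀ k : Fin 3, Fin (n k) → ℤ[X])
    (D : ℤ[X]) (t : ℤ) : WeierstrassCurve ℚ :=
  E ((D * u a f 0).eval t) ((D * u a f 1).eval t)

/-- all `Ш[2 ^ k]` are finite, `2 ^ rank * #Ш[2 ^ k] ^ (1 / k) ≤ R` for all `k ≥ 1`, and
`2 ^ (rank + q) ≤ R` if `Ш` has a subgroup `(ℚ₂ / ℤ₂) ^ q` -/
def Bounded (R : ℝ) (W : WeierstrassCurve ℚ) : Prop :=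
  (∀ k : ℕ, Finite (ShaTor W (2 ^ k))) ∧
  (∀ k : ℕ, 1 ≤ k →
    (2 : ℝ) ^ rk W * (Nat.card (ShaTor W (2 ^ k)) : ℝ) ^ ((1 : ℝ) / k) ≤ R) ∧
  ∀ q : ℕ, HasDiv W q → (2 : ℝ) ^ (rk W + q) ≤ R

/-- `m` has no prime factor `≤ z` -/
def Rough (z : ℝ) (m : ℕ) : Prop := ∀ p : ℕ, p.Prime → (p : ℝ) ≤ z → ¬ p ∣ m

/-- the density of the integers without prime factors `≤ z`, the product of `1 - 1 / p` over the
primes `p ≤ z` -/
noncomputable def V (z : ℝ) : ℝ := ∏ p ∈ (range (⌊z⌋₊ + 1)).filter Nat.Prime, (1 - 1 / (p : ℝ))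

open Classical in
/-- **Theorem.** For all `θ, ε > 0` there are `K > 0` and `r₀` such that for every `r ≥ r₀`, all
admitted families `W^i_t : y² = x (x - D_i(t) u_{i,0}(t)) (x - D_i(t) u_{i,1}(t))` (`i < g`) and
every `b` there is `C` such that for all large `N` and all `Y` with `N ^ θ ≤ Y ≤ N` all but at most
`ε Y` integers `n'` of `(N, N + Y]` have the following property: for all windows `(u, v]` with
`N ≤ u < n' ≤ v ≤ N + Y` and `(v - u) V ≥ K`, where `V = V(N ^ (1 / r))`,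
* the number of the `m` of the window without prime factors `≤ N ^ (1 / r)` is `(1 ± ε) (v - u) V`;
* for every `R > 0` the number of those of these `m` for which not all curves `W^i_t`, `i < g`,
  `|t - m| ≤ b`, are bounded by `R`, is at most `(C / R) (v - u) V`. -/
theorem result (θ ε : ℝ) (hθ : 0 < θ) (hε : 0 < ε) :
    ∃ (K : ℝ) (r₀ : ℕ), 0 < K ∧ ∀ r : ℕ, r₀ ≤ r → ∀ (g : ℕ) (n : Fin g → Fin 3 → ℕ)
      (a : Fin g → Fin 3 → ℤ) (f : ∀ i : Fin g, ∀ k : Fin 3, Fin (n i k) → ℤ[X])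
      (D : Fin g → ℤ[X]), (∀ i, IsPencil (a i) (f i) (D i)) → ∀ b : ℕ,
      ∃ C : ℝ, ∀ᶠ N : ℕ in atTop, ∀ Y : ℕ, (N : ℝ) ^ θ ≤ Y → Y ≤ N →
        (((Ioc N (N + Y)).filter (fun n' => ¬ ∀ u v : ℕ, N ≤ u → u < n' → n' ≤ v → v ≤ N + Y →
          K ≤ ((v : ℝ) - u) * V ((N : ℝ) ^ (1 / (r : ℝ))) →
          |(((Ioc u v).filter (fun m : ℕ => Rough ((N : ℝ) ^ (1 / (r : ℝ))) m)).card : ℝ) -
              (v - u) * V ((N : ℝ) ^ (1 / (r : ℝ)))| ≤
            ε * ((v - u) * V ((N : ℝ) ^ (1 / (r : ℝ)))) ∧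
          ∀ R : ℝ, 0 < R →
            (((Ioc u v).filter (fun m : ℕ => Rough ((N : ℝ) ^ (1 / (r : ℝ))) m ∧
              ¬ ∀ t : ℤ, |t - m| ≤ b → ∀ i, Bounded R (fib (a i) (f i) (D i) t))).card : ℝ) ≤
            C / R * ((v - u) * V ((N : ℝ) ^ (1 / (r : ℝ)))))).card : ℝ) ≤ ε * Y := by
  obtain ⟨K, r₀, hK, _, h⟩ := Pool.Agent.TH779.BS.tailsP θ hθ ε hε
  refine ⟨K, r₀, hK, fun r hr g n a f D hP b => ?_⟩
  have hP' : ∀ i, Pool.Agent.TH779.BS.IsPen (a i) (f i) (D i) := fun i =>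
    ⟨(hP i).ne_zero, ⟨fun x => ((hP i).irreducible x.1 x.2).1,
      fun x => ((hP i).irreducible x.1 x.2).2, fun x y hxy => (hP i).distinct x.1 x.2 y.1 y.2 hxy⟩,
      (hP i).rel, (hP i).D_ne_zero, (hP i).not_dvd,
      Pool.Agent.TH841.TR.bal_of (v := v (D i) (a i) (f i)) rfl rfl rfl (hP i).balanced,
      (hP i).smooth⟩
  obtain ⟨C, hC0, hC⟩ := h r hr hP' b
  refine ⟨C, ?_⟩
  filter_upwards [hC] with N hN
  intro Y hNY hYN
  refine le_trans ?_ (hN Y hNY hYN)
  have hV : V ((N : ℝ) ^ (1 / (r : ℝ))) = Pool.Agent.W123.RP.Vq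
      (Pool.Agent.W123.RU.Poly.Q Pool.Agent.TH779.BS.fX) (Pool.Agent.TH779.BS.lev N r) := by
    rw [Pool.Agent.TH779.BS.vq_eq]
    unfold V
    refine prod_congr rfl fun p hp => ?_
    have hp0 : 0 < p := (mem_filter.1 hp).2.pos
    have h1 : (range p).filter (fun m : ℕ => ∃ i : Fin 1, (p : ℤ) ∣
        (Pool.Agent.TH779.BS.fX i).eval (m : ℤ)) = {0} := by
      ext m
      rw [mem_filter, mem_range, mem_singleton]
      constructor
      · rintro ⟨hm, _, hd⟩
        unfold Pool.Agent.TH779.BS.fX at hd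
        rw [eval_X] at hd
        exact Nat.eq_zero_of_dvd_of_lt (by exact_mod_cast hd) hm
      · rintro rfl
        refine ⟨hp0, 0, ?_⟩
        unfold Pool.Agent.TH779.BS.fX
        rw [eval_X]
        simp
    rw [h1, card_singleton, Nat.cast_one]
  have hS : ∀ m : ℕ, Rough ((N : ℝ) ^ (1 / (r : ℝ))) m ↔ Pool.Agent.TH464.PO.Sf
      (Pool.Agent.W123.RU.Poly.Q Pool.Agent.TH779.BS.fX) (Pool.Agent.TH779.BS.lev N r) m := by
    intro m
    rw [Pool.Agent.TH779.BS.sf_iff]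
    constructor
    · intro h1 p hp hpN i hd
      unfold Pool.Agent.TH779.BS.fX at hd
      rw [eval_X] at hd
      exact h1 p hp hpN (by exact_mod_cast hd)
    · intro h1 p hp hpN hd
      refine h1 p hp hpN 0 ?_
      unfold Pool.Agent.TH779.BS.fX
      rw [eval_X]
      exact_mod_cast hd
  refine Nat.cast_le.2 (card_le_card ?_)
  intro n' hn
  rw [mem_filter] at hn ⊢
  refine ⟨hn.1, fun hall => hn.2 fun u' v' hu hun hnv hv hKV => ?_⟩
  rw [hV] at hKV ⊢
  obtain ⟨h1, h2⟩ := hall u' v' hu hun hnv hv hKV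
  simp only [hS]
  refine ⟨h1, fun R hR => ?_⟩
  have h3 := h2 R hR.le
  rw [div_mul_eq_mul_div, le_div_iff₀ (by positivity)]
  rw [mul_comm] at h3
  refine le_trans (mul_le_mul_of_nonneg_right (Nat.cast_le.2 (card_le_card ?_)) hR.le) h3
  intro m hm
  rw [mem_filter] at hm ⊢
  refine ⟨hm.1, hm.2.1, fun hb => hm.2.2 fun t ht i => ?_⟩
  have h5 := (hP' i).bd (hb t ht i)
  exact ⟨fun k => h5.fin k, fun _ hk => h5.wt_le hk, fun _ hq => h5.div_le le_rfl hq⟩

end Pool.Agent.Results.MP_6073f3_nt.PencilsAtAlmostPrimes
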